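import Pool.Agent.Helper89.UB.Stmts

set_option autoImplicit false

open Finset

namespace Pool.Agent.Helper89.UB

theorem ets_assoc {n : ℕ} (a b f : Finset (Fin n) → ℤ) (B : Finset (Fin n)) :
    ∑ S ∈ B.powerset, (∑ T ∈ S.powerset, a T * b (S \ T)) * f (B \ S) =
      ∑ T ∈ B.powerset, a T * ∑ R ∈ (B \ T).powerset, b R * f ((B \ T) \ R) := by
  simp only [sum_mul, mul_sum]
  rw [sum_sigma', sum_sigma']
  apply sum_nbij' (fun p => ⟨p.2, p.1 \ p.2⟩) (fun p => ⟨p.1 ∪ p.2, p.1⟩)
  · rintro ⟨S, T⟩ h
    simp only [mem_sigma, mem_powerset] at h ⊢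
    exact ⟨h.2.trans h.1, sdiff_subset_sdiff h.1 subset_rfl⟩
  · rintro ⟨T, R⟩ h
    simp only [mem_sigma, mem_powerset] at h ⊢
    exact ⟨union_subset h.1 (h.2.trans sdiff_subset), subset_union_left⟩
  · rintro ⟨S, T⟩ h
    simp only [mem_sigma, mem_powerset] at h
    simp only [union_sdiff_of_subset h.2]
  · rintro ⟨T, R⟩ h
    simp only [mem_sigma, mem_powerset] at h
    have hd : Disjoint T R := disjoint_of_subset_right h.2 disjoint_sdiff
    simp only [union_sdiff_cancel_left hd]
  · rintro ⟨S, T⟩ h
    simp only [mem_sigma, mem_powerset] at h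
    have h1 : (B \ T) \ (S \ T) = B \ S := by
      ext x
      simp only [mem_sdiff]
      constructor
      · rintro ⟨⟨hx, hT⟩, hST⟩
        exact ⟨hx, fun hS => hST ⟨hS, hT⟩⟩
      · rintro ⟨hx, hS⟩
        exact ⟨⟨hx, fun hT => hS (h.2 hT)⟩, fun h' => hS h'.1⟩
    simp only [h1]
    ring

open scoped Classical in
theorem st_ETS : ST_ETS := by
  intro n E hE N u hu B0
  have hf : fz E ∅ = 1 := by
    rw [fz, if_pos hE]
  set k' : Finset (Fin n) → ℤ := fun S => if Disjoint S N then kap E u S else 0 with hk'
  set g2 : Finset (Fin n) → ℤ := fun B => if u ∈ B then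
    ∑ S ∈ (B.erase u).powerset, k' S * eta E N ((B.erase u) \ S) else 0 with hg2
  have hN : ∀ B : Finset (Fin n), (if Disjoint B N then fz E B else 0) =
      ∑ S ∈ B.powerset, eta E N S * fz E (B \ S) := by
    intro B
    exact quo_spec (fz E) (fun B => if Disjoint B N then fz E B else 0) hf B
  have hK : ∀ B : Finset (Fin n), fz E (insert u B) =
      ∑ S ∈ B.powerset, kap E u S * fz E (B \ S) := by
    intro B
    exact quo_spec (fz E) (fun B => fz E (insert u B)) hf B
  have main : ∀ B : Finset (Fin n), (if Disjoint B (insert u N) then fz E B else 0) =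
      ∑ S ∈ B.powerset, (eta E N S - g2 S) * fz E (B \ S) := by
    intro B
    simp only [sub_mul]
    rw [sum_sub_distrib, ← hN B]
    by_cases hB : u ∈ B
    · have hnd : ¬ Disjoint B (insert u N) := by
        intro h
        exact (disjoint_left.1 h) hB (mem_insert_self u N)
      rw [if_neg hnd]
      obtain ⟨B', hB', rfl⟩ : ∃ B', u ∉ B' ∧ insert u B' = B :=
        ⟨B.erase u, notMem_erase u B, insert_erase hB⟩
      rw [sum_powerset_insert hB']
      have h1 : ∑ S ∈ B'.powerset, g2 S * fz E (insert u B' \ S) = 0 := by
        apply sum_eq_zero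
        intro S hS
        rw [hg2]
        simp only
        rw [if_neg (fun h => hB' (mem_powerset.1 hS h)), zero_mul]
      have h2 : ∑ S ∈ B'.powerset, g2 (insert u S) * fz E (insert u B' \ insert u S) =
          ∑ S ∈ B'.powerset, (∑ T ∈ S.powerset, k' T * eta E N (S \ T)) * fz E (B' \ S) := by
        apply sum_congr rfl
        intro S hS
        have huS : u ∉ S := fun h => hB' (mem_powerset.1 hS h)
        have h3 : insert u B' \ insert u S = B' \ S := by
          ext x
          simp only [mem_sdiff, mem_insert, not_or]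
          constructor
          · rintro ⟨hx | hx, hne, hxS⟩
            · exact absurd hx hne
            · exact ⟨hx, hxS⟩
          · rintro ⟨hx, hxS⟩
            exact ⟨Or.inr hx, fun h => hB' (h ▸ hx), hxS⟩
        rw [h3, hg2]
        simp only
        rw [if_pos (mem_insert_self u S), erase_insert huS]
      rw [h1, h2, ets_assoc, zero_add]
      have h4 : ∀ T ∈ B'.powerset, k' T * ∑ R ∈ (B' \ T).powerset, eta E N R * fz E ((B' \ T) \ R) =
          if Disjoint B' N then kap E u T * fz E (B' \ T) else 0 := by
        intro T hT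
        rw [← hN (B' \ T), hk']
        simp only
        by_cases hd : Disjoint B' N
        · rw [if_pos hd, if_pos (disjoint_of_subset_left (mem_powerset.1 hT) hd),
            if_pos (disjoint_of_subset_left sdiff_subset hd)]
        · rw [if_neg hd]
          by_cases hdT : Disjoint T N
          · have hd2 : ¬ Disjoint (B' \ T) N := by
              intro h
              apply hd
              rw [← union_sdiff_of_subset (mem_powerset.1 hT)]
              exact disjoint_union_left.2 ⟨hdT, h⟩
            rw [if_neg hd2, mul_zero]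
          · rw [if_neg hdT, zero_mul]
      rw [sum_congr rfl h4]
      by_cases hd : Disjoint B' N
      · have hd2 : Disjoint (insert u B') N := disjoint_insert_left.2 ⟨hu, hd⟩
        rw [if_pos hd2]
        simp only [if_pos hd]
        rw [← hK B', sub_self]
      · have hd2 : ¬ Disjoint (insert u B') N := fun h => hd (disjoint_insert_left.1 h).2
        rw [if_neg hd2]
        simp only [if_neg hd, sum_const_zero, sub_zero]
    · have h1 : ∑ S ∈ B.powerset, g2 S * fz E (B \ S) = 0 := by
        apply sum_eq_zero
        intro S hS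
        rw [hg2]
        simp only
        rw [if_neg (fun h => hB (mem_powerset.1 hS h)), zero_mul]
      rw [h1, sub_zero]
      by_cases hd : Disjoint B N
      · rw [if_pos hd, if_pos (disjoint_insert_right.2 ⟨hB, hd⟩)]
      · rw [if_neg hd, if_neg (fun h => hd (disjoint_insert_right.1 h).2)]
  have h5 := quo_unique (fz E) (fun B => if Disjoint B (insert u N) then fz E B else 0) hf univ
    (fun B => eta E N B - g2 B) (fun B _ => main B) B0 (subset_univ _)
  exact h5.symm

end Pool.Agent.Helper89.UB
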