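import Pool.Agent.Helper89.UB.Stmts

set_option autoImplicit false

open Finset

namespace Pool.Agent.Helper89.UB

open scoped Classical in
theorem exp_one {n m : ℕ} (E : Finset (Finset (Fin n))) (c : Fin m → Finset (Fin n))
    (hc : c ∈ OP E univ m) :
    ∑ i, 2 ^ (c i).card ≤
      ∑ U ∈ univ.filter (fun U : Finset (Fin n) => U.Nonempty),
        (if ∃ i, U ⊆ c i then 2 ^ U.card else 0) := by
  rw [OP, mem_filter] at hc
  obtain ⟨_, g1, g2, g3, g4⟩ := hc
  have hinj : Function.Injective c := by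
    intro i j hij
    by_contra hne
    have hd := g2 i j hne
    rw [hij, disjoint_self_iff_empty] at hd
    exact (g1 j).ne_empty hd
  have h1 : ∑ i, 2 ^ (c i).card = ∑ U ∈ univ.image c, 2 ^ U.card := by
    rw [sum_image (fun i _ j _ h => hinj h)]
  rw [h1, ← sum_filter]
  apply sum_le_sum_of_subset
  intro U hU
  rw [mem_image] at hU
  obtain ⟨i, _, rfl⟩ := hU
  rw [mem_filter, mem_filter]
  exact ⟨⟨mem_univ _, g1 i⟩, i, subset_rfl⟩

open scoped Classical in
theorem st_EXP (hSUB : ST_SUB) : ST_EXP := by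
  intro n D m E hE hDm
  have hmD : (0 : ℝ) < (m : ℝ) - D := by
    have : (D : ℝ) < m := by exact_mod_cast hDm
    linarith
  set a : ℝ := (m : ℝ) - D with ha
  have hcast : ((m - D : ℕ) : ℝ) = a := by
    rw [Nat.cast_sub hDm.le]
  set N : Finset (Fin n) → ℕ := fun U => ((OP E univ m).filter (fun c => ∃ i, U ⊆ c i)).card with hN
  have h1 : ∑ c ∈ OP E univ m, ∑ i, 2 ^ (c i).card ≤
      ∑ U ∈ univ.filter (fun U : Finset (Fin n) => U.Nonempty), 2 ^ U.card * N U := by
    calc _ ≤ ∑ c ∈ OP E univ m, ∑ U ∈ univ.filter (fun U : Finset (Fin n) => U.Nonempty),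
        (if ∃ i, U ⊆ c i then 2 ^ U.card else 0) := sum_le_sum (fun c hc => exp_one E c hc)
      _ = ∑ U ∈ univ.filter (fun U : Finset (Fin n) => U.Nonempty), ∑ c ∈ OP E univ m,
        (if ∃ i, U ⊆ c i then 2 ^ U.card else 0) := sum_comm
      _ = _ := by
        apply sum_congr rfl
        intro U _
        rw [← sum_filter, sum_const, smul_eq_mul, mul_comm]
  have h2 : ∀ U : Finset (Fin n), U.Nonempty →
      ((2 : ℝ) ^ U.card * N U) ≤ sur E univ m * a * (2 / a) ^ U.card := by
    intro U hU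
    have h3 := hSUB n D m E hE U hU
    have h4 : (a ^ (U.card - 1)) * (N U : ℝ) ≤ sur E univ m := by
      rw [← hcast]
      exact_mod_cast h3
    have h5 : 1 ≤ U.card := hU.card_pos
    have h6 : a ^ U.card = a * a ^ (U.card - 1) := by
      rw [← pow_succ']
      congr 1
      omega
    rw [div_pow, mul_div_assoc', le_div_iff₀ (pow_pos hmD _), h6]
    calc (2 : ℝ) ^ U.card * N U * (a * a ^ (U.card - 1)) =
        (a * 2 ^ U.card) * (a ^ (U.card - 1) * (N U : ℝ)) := by ring
      _ ≤ (a * 2 ^ U.card) * sur E univ m :=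
        mul_le_mul_of_nonneg_left h4 (by positivity)
      _ = _ := by ring
  have h7 : ∑ U : Finset (Fin n), (2 / a) ^ U.card = (2 / a + 1) ^ n := by
    have h8 := Finset.sum_pow_mul_eq_add_pow (2 / a) (1 : ℝ) (univ : Finset (Fin n))
    rw [powerset_univ, card_univ, Fintype.card_fin] at h8
    rw [← h8]
    apply sum_congr rfl
    intro U _
    rw [one_pow, mul_one]
  have h9 : (2 / a + 1) ^ n ≤ Real.exp (2 * n / a) := by
    calc (2 / a + 1) ^ n ≤ (Real.exp (2 / a)) ^ n :=
          pow_le_pow_left₀ (by positivity) (Real.add_one_le_exp _) n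
      _ = Real.exp (2 * n / a) := by
          rw [← Real.exp_nat_mul]
          congr 1
          ring
  have hs : (0 : ℝ) ≤ sur E univ m := Nat.cast_nonneg _
  calc ((∑ c ∈ OP E univ m, ∑ i, 2 ^ (c i).card : ℕ) : ℝ) ≤
      ((∑ U ∈ univ.filter (fun U : Finset (Fin n) => U.Nonempty), 2 ^ U.card * N U : ℕ) : ℝ) := by
        exact_mod_cast h1
    _ = ∑ U ∈ univ.filter (fun U : Finset (Fin n) => U.Nonempty), ((2 : ℝ) ^ U.card * N U) := by
        push_cast
        rfl
    _ ≤ ∑ U ∈ univ.filter (fun U : Finset (Fin n) => U.Nonempty),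
        sur E univ m * a * (2 / a) ^ U.card :=
        sum_le_sum (fun U hU => h2 U (mem_filter.1 hU).2)
    _ ≤ ∑ U : Finset (Fin n), sur E univ m * a * (2 / a) ^ U.card :=
        sum_le_sum_of_subset_of_nonneg (subset_univ _) (fun U _ _ => by positivity)
    _ = sur E univ m * a * (2 / a + 1) ^ n := by rw [← mul_sum, h7]
    _ ≤ sur E univ m * a * Real.exp (2 * n / a) :=
        mul_le_mul_of_nonneg_left h9 (by positivity)
    _ ≤ sur E univ m * (m * Real.exp (2 * n / a)) := by
        rw [mul_assoc]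
        apply mul_le_mul_of_nonneg_left _ hs
        apply mul_le_mul_of_nonneg_right _ (Real.exp_pos _).le
        have : (0 : ℝ) ≤ D := Nat.cast_nonneg _
        rw [ha]
        linarith

end Pool.Agent.Helper89.UB
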