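import Pool.Agent.Helper89.UB.Stmts

set_option autoImplicit false

open Finset

namespace Pool.Agent.Helper89.UB

open scoped Classical in
theorem lnk_fiber {n : ℕ} (E : Finset (Finset (Fin n))) (m : ℕ) (P : Finset (Finset (Fin n)))
    (h1 : P.card = m) (h2 : ∀ B ∈ P, B.Nonempty) (h3 : ∀ B ∈ P, ∀ C ∈ P, B ≠ C → Disjoint B C)
    (h4 : ∀ v : Fin n, ∃ B ∈ P, v ∈ B) (h5 : ∀ B ∈ P, ∀ e ∈ E, ¬ e ⊆ B) :
    ((OP E univ m).filter (fun c => Finset.image c univ = P)).card = m.factorial := by
  have e0 : Fin m ≃ P := (Fintype.equivFinOfCardEq (by simpa using h1)).symm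
  have hc : Fintype.card (Fin m ≃ P) = m.factorial := by
    rw [Fintype.card_equiv e0, Fintype.card_fin]
  rw [← hc, ← Finset.card_univ]
  symm
  apply Finset.card_bij (fun (e : Fin m ≃ P) _ => fun i => ((e i : P) : Finset (Fin n)))
  · intro e _
    rw [mem_filter, OP, mem_filter]
    refine ⟨⟨mem_univ _, fun i => h2 _ (e i).2, fun i j hij => ?_, fun v => ?_, fun i => ?_⟩, ?_⟩
    · apply h3 _ (e i).2 _ (e j).2
      intro h
      exact hij (e.injective (Subtype.ext h))
    · constructor
      · intro _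
        obtain ⟨B, hB, hv⟩ := h4 v
        refine ⟨e.symm ⟨B, hB⟩, ?_⟩
        simpa using hv
      · intro _
        exact mem_univ v
    · intro e' he'
      exact h5 _ (e i).2 e' he'
    · ext B
      simp only [mem_image, mem_univ, true_and]
      constructor
      · rintro ⟨i, rfl⟩
        exact (e i).2
      · intro hB
        exact ⟨e.symm ⟨B, hB⟩, by simp⟩
  · intro e _ e' _ h
    apply Equiv.ext
    intro i
    exact Subtype.ext (congrFun h i)
  · intro c hc
    rw [mem_filter, OP, mem_filter] at hc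
    obtain ⟨⟨_, g1, g2, g3, g4⟩, g5⟩ := hc
    have hm : ∀ i, c i ∈ P := fun i => g5 ▸ mem_image_of_mem c (mem_univ i)
    have hinj : Function.Injective c := by
      intro i j hij
      by_contra hne
      have hd := g2 i j hne
      rw [hij, disjoint_self_iff_empty] at hd
      exact (g1 j).ne_empty hd
    have hbij : Function.Bijective (fun i => (⟨c i, hm i⟩ : P)) := by
      constructor
      · intro i j hij
        exact hinj (congrArg Subtype.val hij)
      · rintro ⟨B, hB⟩
        rw [← g5, mem_image] at hB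
        obtain ⟨i, _, hi⟩ := hB
        exact ⟨i, Subtype.ext hi⟩
    exact ⟨Equiv.ofBijective _ hbij, mem_univ _, rfl⟩

open scoped Classical in
theorem st_LNK : ST_LNK := by
  intro n E m
  have hb : bc E m = (univ.filter (fun P : Finset (Finset (Fin n)) =>
      P.card = m ∧
    (∀ B ∈ P, B.Nonempty) ∧
    (∀ B ∈ P, ∀ C ∈ P, B ≠ C → Disjoint B C) ∧
    (∀ v : Fin n, ∃ B ∈ P, v ∈ B) ∧
    (∀ B ∈ P, ∀ e ∈ E, ¬ e ⊆ B))).card := by
    rw [bc, ← Set.ncard_coe_finset, coe_filter]
    simp only [mem_univ, true_and]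
  rw [hb, sur]
  symm
  rw [Finset.card_eq_sum_card_fiberwise (f := fun c : Fin m → Finset (Fin n) => image c univ)
    (t := univ.filter (fun P : Finset (Finset (Fin n)) =>
      P.card = m ∧
    (∀ B ∈ P, B.Nonempty) ∧
    (∀ B ∈ P, ∀ C ∈ P, B ≠ C → Disjoint B C) ∧
    (∀ v : Fin n, ∃ B ∈ P, v ∈ B) ∧
    (∀ B ∈ P, ∀ e ∈ E, ¬ e ⊆ B)))]
  · rw [Finset.sum_congr rfl (g := fun _ => m.factorial), sum_const, smul_eq_mul]
    intro P hP
    rw [mem_filter] at hP
    obtain ⟨_, h1, h2, h3, h4, h5⟩ := hP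
    exact lnk_fiber E m P h1 h2 h3 h4 h5
  · intro c hc
    rw [mem_coe, OP, mem_filter] at hc
    obtain ⟨_, g1, g2, g3, g4⟩ := hc
    have hinj : Function.Injective c := by
      intro i j hij
      by_contra hne
      have hd := g2 i j hne
      rw [hij, disjoint_self_iff_empty] at hd
      exact (g1 j).ne_empty hd
    rw [mem_coe, mem_filter]
    refine ⟨mem_univ _, ?_, ?_, ?_, ?_, ?_⟩
    · rw [card_image_of_injective _ hinj, card_univ, Fintype.card_fin]
    · intro B hB
      rw [mem_image] at hB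
      obtain ⟨i, _, rfl⟩ := hB
      exact g1 i
    · intro B hB C hC hne
      rw [mem_image] at hB hC
      obtain ⟨i, _, rfl⟩ := hB
      obtain ⟨j, _, rfl⟩ := hC
      exact g2 i j (fun h => hne (h ▸ rfl))
    · intro v
      obtain ⟨i, hi⟩ := (g3 v).1 (mem_univ v)
      exact ⟨c i, mem_image_of_mem c (mem_univ i), hi⟩
    · intro B hB
      rw [mem_image] at hB
      obtain ⟨i, _, rfl⟩ := hB
      exact g4 i

end Pool.Agent.Helper89.UB
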