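import Pool.Agent.Helper89.UB.Stmts

set_option autoImplicit false

open Finset

namespace Pool.Agent.Helper89.UB

open scoped Classical in
theorem mgl_edge {n m : ℕ} (E : Finset (Finset (Fin n))) (c : Fin m → Finset (Fin n))
    (g2 : ∀ i j, i ≠ j → Disjoint (c i) (c j)) (g4 : ∀ i, Al E (c i))
    (e : Finset (Fin n)) (he : e ∈ E) :
    (univ.filter (fun p : Fin m × Fin m => p.1 ≠ p.2 ∧ e ⊆ c p.1 ∪ c p.2)).card ≤ 2 := by
  rcases (univ.filter (fun p : Fin m × Fin m => p.1 ≠ p.2 ∧ e ⊆ c p.1 ∪ c p.2)).eq_empty_or_nonempty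
    with h0 | ⟨⟨i, j⟩, hp⟩
  · rw [h0]
    simp
  · have key : ∀ i j : Fin m, i ≠ j → e ⊆ c i ∪ c j → ∃ x ∈ e, x ∈ c i := by
      intro i j hij hsub
      by_contra hcon
      push Not at hcon
      apply g4 j e he
      intro x hx
      rcases mem_union.1 (hsub hx) with h | h
      · exact absurd h (hcon x hx)
      · exact h
    rw [mem_filter] at hp
    obtain ⟨_, hij, hsub⟩ := hp
    simp only at hij hsub
    obtain ⟨x, hx, hxi⟩ := key i j hij hsub
    obtain ⟨y, hy, hyj⟩ := key j i (Ne.symm hij) (by rw [union_comm]; exact hsub)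
    have huniq : ∀ z : Fin n, ∀ a b : Fin m, z ∈ c a → z ∈ c b → a = b := by
      intro z a b ha hb
      by_contra hab
      exact (disjoint_left.1 (g2 a b hab)) ha hb
    have hsub2 : univ.filter (fun p : Fin m × Fin m => p.1 ≠ p.2 ∧ e ⊆ c p.1 ∪ c p.2) ⊆
        {(i, j), (j, i)} := by
      rintro ⟨a, b⟩ hp
      rw [mem_filter] at hp
      obtain ⟨_, hab, hs⟩ := hp
      simp only at hab hs
      rw [mem_insert, mem_singleton]
      rcases mem_union.1 (hs hx) with h | h
      · have h1 : a = i := huniq x a i h hxi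
        rcases mem_union.1 (hs hy) with h' | h'
        · have h2 : a = j := huniq y a j h' hyj
          exact absurd (h1.symm.trans h2) hij
        · left
          rw [h1, huniq y b j h' hyj]
      · have h1 : b = i := huniq x b i h hxi
        rcases mem_union.1 (hs hy) with h' | h'
        · right
          rw [h1, huniq y a j h' hyj]
        · have h2 : b = j := huniq y b j h' hyj
          exact absurd (h1.symm.trans h2) hij
    exact (card_le_card hsub2).trans card_le_two

open scoped Classical in
theorem st_MGL : ST_MGL := by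
  intro n r m E c h2 hr hc
  rw [OP, mem_filter] at hc
  obtain ⟨_, g1, g2, g3, g4⟩ := hc
  -- the off-diagonal pairs
  have hoff : (univ.filter (fun p : Fin m × Fin m => p.1 ≠ p.2)).card = m * (m - 1) := by
    have h1 : univ.filter (fun p : Fin m × Fin m => p.1 ≠ p.2) = (univ : Finset (Fin m)).offDiag := by
      ext p
      simp only [mem_filter, mem_univ, true_and, mem_offDiag]
    rw [h1, offDiag_card, card_univ, Fintype.card_fin, Nat.mul_sub, mul_one]
  set B1 := univ.filter (fun p : Fin m × Fin m => p.1 ≠ p.2 ∧ Al E (c p.1 ∪ c p.2)) with hB1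
  set B2 := (E.filter (fun e => e.card < r)).biUnion (fun e =>
    univ.filter (fun p : Fin m × Fin m => p.1 ≠ p.2 ∧ e ⊆ c p.1 ∪ c p.2)) with hB2
  set Big := univ.filter (fun i : Fin m => r ≤ 2 * (c i).card) with hBig
  have hcov : univ.filter (fun p : Fin m × Fin m => p.1 ≠ p.2) ⊆
      (B1 ∪ B2) ∪ (Big ×ˢ univ ∪ univ ×ˢ Big) := by
    rintro ⟨i, j⟩ hp
    rw [mem_filter] at hp
    obtain ⟨_, hij⟩ := hp
    simp only at hij
    by_cases hal : Al E (c i ∪ c j)
    · apply mem_union_left
      apply mem_union_left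
      rw [hB1, mem_filter]
      exact ⟨mem_univ _, hij, hal⟩
    · rw [Al] at hal
      push Not at hal
      obtain ⟨e, he, hsub⟩ := hal
      by_cases her : e.card < r
      · apply mem_union_left
        apply mem_union_right
        rw [hB2, mem_biUnion]
        exact ⟨e, mem_filter.2 ⟨he, her⟩, mem_filter.2 ⟨mem_univ _, hij, hsub⟩⟩
      · apply mem_union_right
        have h3 : r ≤ (c i).card + (c j).card :=
          (not_lt.1 her).trans ((card_le_card hsub).trans (card_union_le _ _))
        rcases le_total ((c j).card) ((c i).card) with h | h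
        · apply mem_union_left
          rw [mem_product]
          exact ⟨mem_filter.2 ⟨mem_univ _, by simp only; omega⟩, mem_univ _⟩
        · apply mem_union_right
          rw [mem_product]
          exact ⟨mem_univ _, mem_filter.2 ⟨mem_univ _, by simp only; omega⟩⟩
  have hB2c : B2.card ≤ (E.filter (fun e => e.card < r)).card * 2 := by
    apply card_biUnion_le_card_mul
    intro e he
    exact mgl_edge E c g2 g4 e (mem_filter.1 he).1
  have hsum : ∑ i, (c i).card ≤ n := by
    have h4 : (univ.biUnion c).card = ∑ i, (c i).card :=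
      card_biUnion (fun i _ j _ hij => g2 i j hij)
    rw [← h4]
    have h5 := card_le_univ (univ.biUnion c)
    rwa [Fintype.card_fin] at h5
  have hBigc : Big.card * r ≤ 2 * n := by
    calc Big.card * r = ∑ i ∈ Big, r := by rw [sum_const, smul_eq_mul]
      _ ≤ ∑ i ∈ Big, 2 * (c i).card := sum_le_sum (fun i hi => (mem_filter.1 hi).2)
      _ ≤ ∑ i, 2 * (c i).card := sum_le_sum_of_subset (subset_univ _)
      _ = 2 * ∑ i, (c i).card := by rw [mul_sum]
      _ ≤ 2 * n := Nat.mul_le_mul_left _ hsum
  have htot : m * (m - 1) ≤ B1.card + (E.filter (fun e => e.card < r)).card * 2 +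
      (Big.card * m + m * Big.card) := by
    rw [← hoff]
    calc _ ≤ ((B1 ∪ B2) ∪ (Big ×ˢ univ ∪ univ ×ˢ Big)).card := card_le_card hcov
      _ ≤ (B1 ∪ B2).card + (Big ×ˢ univ ∪ univ ×ˢ Big).card := card_union_le _ _
      _ ≤ (B1.card + B2.card) + ((Big ×ˢ (univ : Finset (Fin m))).card +
          ((univ : Finset (Fin m)) ×ˢ Big).card) :=
        Nat.add_le_add (card_union_le _ _) (card_union_le _ _)
      _ ≤ _ := by
        rw [card_product, card_product, card_univ, Fintype.card_fin]
        omega
  have hmg : mg E c = B1.card := by rw [mg, hB1]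
  rw [hmg]
  calc m * (m - 1) * r ≤ (B1.card + (E.filter (fun e => e.card < r)).card * 2 +
      (Big.card * m + m * Big.card)) * r := Nat.mul_le_mul_right _ htot
    _ = B1.card * r + 2 * (E.filter (fun e => e.card < r)).card * r +
        (Big.card * r) * (2 * m) := by ring
    _ ≤ B1.card * r + 2 * (E.filter (fun e => e.card < r)).card * r + (2 * n) * (2 * m) :=
        Nat.add_le_add_left (Nat.mul_le_mul_right _ hBigc) _
    _ = _ := by ring

end Pool.Agent.Helper89.UB
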